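import Mathlib
import Pool.Agent.W443.J6.Stms

/-! Classification of homogeneous forms, weights (1,n) and (1,1). -/

set_option autoImplicit false

open Pool.Agent.H938R2.JC Pool.Agent.W443.J5 Pool.Agent.W443.J6

namespace Pool.Agent.W605.J6

universe u

section

open MvPolynomial

variable {k : Type u} [Field k]

/-- Homogeneity for the weights 1, n. -/
def Hom (n d : ℕ) (A : MvPolynomial (Fin 2) k) : Prop := ∀ m, coeff m A ≠ 0 → m 0 + n * m 1 = d

theorem Hom.mul {n d d' : ℕ} {A B : MvPolynomial (Fin 2) k} (hA : Hom n d A) (hB : Hom n d' B) :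
    Hom n (d + d') (A * B) := by
  intro m hm
  rw [coeff_mul] at hm
  obtain ⟨x, hx, hx2⟩ := Finset.exists_ne_zero_of_sum_ne_zero hm
  rw [Finset.HasAntidiagonal.mem_antidiagonal] at hx
  have h1 := hA x.1 (left_ne_zero_of_mul hx2)
  have h2 := hB x.2 (right_ne_zero_of_mul hx2)
  rw [← hx, Finsupp.add_apply, Finsupp.add_apply, mul_add]
  omega

theorem Hom.C (n : ℕ) (c : k) : Hom n 0 (C c : MvPolynomial (Fin 2) k) := by
  intro m hm
  rw [coeff_C] at hm
  split_ifs at hm with h
  · rw [← h]; simp
  · exact absurd rfl hm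

theorem Hom.pow {n d : ℕ} {A : MvPolynomial (Fin 2) k} (hA : Hom n d A) (j : ℕ) :
    Hom n (j * d) (A ^ j) := by
  induction j with
  | zero =>
    rw [pow_zero, zero_mul, ← C_1]
    exact Hom.C n 1
  | succ j ih =>
    rw [pow_succ, Nat.succ_mul]
    exact ih.mul hA

theorem Hom.add {n d : ℕ} {A B : MvPolynomial (Fin 2) k} (hA : Hom n d A) (hB : Hom n d B) :
    Hom n d (A + B) := by
  intro m hm
  by_cases h : coeff m A = 0
  · apply hB
    intro h2
    apply hm
    rw [coeff_add, h, h2, add_zero]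
  · exact hA m h

theorem Hom.sub {n d : ℕ} {A B : MvPolynomial (Fin 2) k} (hA : Hom n d A) (hB : Hom n d B) :
    Hom n d (A - B) := by
  intro m hm
  by_cases h : coeff m A = 0
  · apply hB
    intro h2
    apply hm
    rw [coeff_sub, h, h2, sub_zero]
  · exact hA m h

theorem Hom.X0 (n : ℕ) : Hom n 1 (X 0 : MvPolynomial (Fin 2) k) := by
  intro m hm
  rw [coeff_X] at hm
  split_ifs at hm with h
  · rw [← h]; simp
  · exact absurd rfl hm

theorem Hom.X1 (n : ℕ) : Hom n n (X 1 : MvPolynomial (Fin 2) k) := by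
  intro m hm
  rw [coeff_X] at hm
  split_ifs at hm with h
  · rw [← h]; simp
  · exact absurd rfl hm

/-- Coefficients of the dehomogenisation. -/
theorem dz_coeff (A : MvPolynomial (Fin 2) k) (j : ℕ) :
    (aeval ![1, Polynomial.X] A : Polynomial k).coeff j
      = ∑ m ∈ A.support.filter (fun m => m 1 = j), coeff m A := by
  conv_lhs => rw [A.as_sum]
  rw [map_sum, Polynomial.finsetSum_coeff, Finset.sum_filter]
  refine Finset.sum_congr rfl fun m _ => ?_
  rw [aeval_monomial, Finsupp.prod_fintype _ _ (by simp), Fin.prod_univ_two]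
  simp only [Matrix.cons_val_zero, Matrix.cons_val_one, one_pow, one_mul]
  rw [Polynomial.algebraMap_eq, Polynomial.coeff_C_mul, Polynomial.coeff_X_pow]
  simp only [mul_ite, mul_one, mul_zero, eq_comm]

theorem inj0 {n d : ℕ} {B : MvPolynomial (Fin 2) k} (hB : Hom n d B)
    (h : (aeval ![1, Polynomial.X] B : Polynomial k) = 0) : B = 0 := by
  ext m
  rw [coeff_zero]
  by_contra hm
  have h1 := dz_coeff B (m 1)
  rw [h, Polynomial.coeff_zero, Finset.sum_eq_single m] at h1
  · exact hm h1.symm
  · intro m' hm' hne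
    rw [Finset.mem_filter, mem_support_iff] at hm'
    exfalso
    apply hne
    rw [ext_iff']
    have h2 := hB m' hm'.1
    have h3 := hB m hm
    rw [hm'.2] at h2
    exact ⟨by omega, hm'.2⟩
  · intro hm'
    rw [Finset.mem_filter, mem_support_iff] at hm'
    by_contra h2
    exact hm' ⟨h2, rfl⟩

theorem inj1 {n d : ℕ} {A B : MvPolynomial (Fin 2) k} (hA : Hom n d A) (hB : Hom n d B)
    (h : (aeval ![1, Polynomial.X] A : Polynomial k) = aeval ![1, Polynomial.X] B) : A = B := by
  have h1 := inj0 (hA.sub hB) (by rw [map_sub, h, sub_self])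
  exact sub_eq_zero.1 h1

theorem deg_le {n d : ℕ} {A : MvPolynomial (Fin 2) k} (hA : Hom n d A)
    (h : (aeval ![1, Polynomial.X] A : Polynomial k) ≠ 0) :
    n * (aeval ![1, Polynomial.X] A : Polynomial k).natDegree ≤ d := by
  set V := (aeval ![1, Polynomial.X] A : Polynomial k).natDegree with hV
  have h1 : (aeval ![1, Polynomial.X] A : Polynomial k).coeff V ≠ 0 := by
    rw [hV, Polynomial.coeff_natDegree]
    exact Polynomial.leadingCoeff_ne_zero.2 h
  rw [dz_coeff] at h1
  obtain ⟨m, hm, hm2⟩ := Finset.exists_ne_zero_of_sum_ne_zero h1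
  rw [Finset.mem_filter] at hm
  have h2 := hA m hm2
  rw [hm.2] at h2
  omega

end

section uni

open Polynomial

variable {k : Type u} [Field k] [CharZero k]

omit [CharZero k] in
theorem coeff_X_mul_deriv (p : k[X]) (j : ℕ) : (X * derivative p).coeff j = j * p.coeff j := by
  cases j with
  | zero => simp
  | succ j => rw [coeff_X_mul, coeff_derivative]; push_cast; ring

/-- A polynomial with `V α = (X + c) α'`. -/
theorem pow_of_ode (α : k[X]) (c : k) (V : ℕ) (h : C (V : k) * α = (X + C c) * derivative α) :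
    ∃ κ : k, α = C κ * (X + C c) ^ V := by
  set β := α.comp (X - C c) with hβ
  have hαβ : α = β.comp (X + C c) := by
    rw [hβ, comp_assoc]
    simp
  have h1 : C (V : k) * β = X * derivative β := by
    have h2 := congrArg (fun p => p.comp (X - C c)) h
    simp only [mul_comp, C_comp, add_comp, X_comp, sub_add_cancel] at h2
    rw [hβ, h2, derivative_comp]
    simp
  have h3 : β = C (β.coeff V) * X ^ V := by
    ext j
    rw [coeff_C_mul, coeff_X_pow]
    by_cases hj : j = V
    · rw [if_pos hj, mul_one, hj]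
    · rw [if_neg hj, mul_zero]
      have h4 := congrArg (fun p => p.coeff j) h1
      simp only [coeff_C_mul, coeff_X_mul_deriv] at h4
      have h5 : ((V : k) - j) * β.coeff j = 0 := by rw [sub_mul, h4, sub_self]
      rcases mul_eq_zero.1 h5 with h6 | h6
      · exfalso; apply hj
        have := sub_eq_zero.1 h6
        exact_mod_cast this.symm
      · exact h6
  refine ⟨β.coeff V, ?_⟩
  conv_lhs => rw [hαβ, h3]
  simp

/-- Comparison of the leading coefficients. -/
theorem lead (α φ : k[X]) (d w : ℕ) (h : C (d : k) * α * derivative φ -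
    C (w : k) * derivative α * φ = α) (hα : α ≠ 0) (hV : 1 ≤ α.natDegree)
    (he : 2 ≤ φ.natDegree) : d * φ.natDegree = w * α.natDegree := by
  set V := α.natDegree with hVd
  set e := φ.natDegree with hed
  have hφ : φ ≠ 0 := by
    intro h0
    rw [h0] at hed
    simp at hed
    omega
  have c1 : (α * derivative φ).coeff (V + (e - 1)) = α.coeff V * (φ.coeff e * e) := by
    rw [coeff_mul_add_eq_of_natDegree_le hVd.symm.le]
    · rw [coeff_derivative, show e - 1 + 1 = e by omega]
      congr 2
      have : (((e - 1 : ℕ) : k)) + 1 = ((e - 1 + 1 : ℕ) : k) := by push_cast; ring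
      rw [this, show e - 1 + 1 = e by omega]
    · exact (natDegree_derivative_le φ)
  have c2 : (derivative α * φ).coeff (V - 1 + e) = (α.coeff V * V) * φ.coeff e := by
    rw [coeff_mul_add_eq_of_natDegree_le (natDegree_derivative_le α) hed.symm.le]
    rw [coeff_derivative, show V - 1 + 1 = V by omega]
    congr 2
    have : (((V - 1 : ℕ) : k)) + 1 = ((V - 1 + 1 : ℕ) : k) := by push_cast; ring
    rw [this, show V - 1 + 1 = V by omega]
  have h2 := congrArg (fun p => p.coeff (V + (e - 1))) h
  simp only [coeff_sub, mul_assoc, coeff_C_mul] at h2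
  rw [c1, show V + (e - 1) = V - 1 + e by omega, c2,
    coeff_eq_zero_of_natDegree_lt (show α.natDegree < V - 1 + e by omega)] at h2
  have hlα : α.coeff V ≠ 0 := by rw [hVd, coeff_natDegree]; exact leadingCoeff_ne_zero.2 hα
  have hlφ : φ.coeff e ≠ 0 := by rw [hed, coeff_natDegree]; exact leadingCoeff_ne_zero.2 hφ
  have h3 : ((d * e : ℕ) : k) - ((w * V : ℕ) : k) = 0 := by
    have h4 : (α.coeff V * φ.coeff e) * (((d * e : ℕ) : k) - ((w * V : ℕ) : k)) = 0 := by
      push_cast
      linear_combination h2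
    rcases mul_eq_zero.1 h4 with h5 | h5
    · exact absurd h5 (mul_ne_zero hlα hlφ)
    · exact h5
  exact_mod_cast sub_eq_zero.1 h3

/-- The case where the solution has degree at most one. -/
theorem small (α φ : k[X]) (d w : ℕ) (h : C (d : k) * α * derivative φ -
    C (w : k) * derivative α * φ = α) (hα : α ≠ 0) (hV : 1 ≤ α.natDegree)
    (he : φ.natDegree ≤ 1) (hw : 1 ≤ w) :
    ∃ κ c : k, κ ≠ 0 ∧ α = C κ * (X + C c) ^ α.natDegree := by
  obtain ⟨p, r, hφ⟩ : ∃ p r : k, φ = C r * X + C p := by
    exact ⟨_, _, eq_X_add_C_of_natDegree_le_one he⟩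
  set V := α.natDegree with hVd
  have hlα : α.coeff V ≠ 0 := by rw [hVd, coeff_natDegree]; exact leadingCoeff_ne_zero.2 hα
  have hdφ : derivative φ = C r := by rw [hφ]; simp
  rw [hdφ, hφ] at h
  have hder : (derivative α).coeff V = 0 :=
    coeff_eq_zero_of_natDegree_lt (lt_of_le_of_lt (natDegree_derivative_le α) (by omega))
  have hder1 : (derivative α).coeff (V - 1) = α.coeff V * V := by
    rw [coeff_derivative, show V - 1 + 1 = V by omega]
    congr 1
    have : (((V - 1 : ℕ) : k)) + 1 = ((V - 1 + 1 : ℕ) : k) := by push_cast; ring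
    rw [this, show V - 1 + 1 = V by omega]
  have h2 := congrArg (fun p => p.coeff V) h
  have h3 : C (d : k) * α * C r - C (w : k) * derivative α * (C r * X + C p)
      = C ((d : k) * r) * α - C ((w : k) * r) * (derivative α * X) -
        C ((w : k) * p) * derivative α := by
    simp only [C_mul]; ring
  have h4 : (derivative α * X).coeff V = α.coeff V * V := by
    rw [show V = (V - 1) + 1 by omega, coeff_mul_X, hder1]
    rw [show V - 1 + 1 = V by omega]
  simp only [h3, coeff_sub, coeff_C_mul, h4, hder, mul_zero, sub_zero] at h2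
  have h5 : (d : k) * r - 1 = w * r * V := by
    have : α.coeff V * ((d : k) * r - 1 - w * r * V) = 0 := by linear_combination h2
    rcases mul_eq_zero.1 this with h6 | h6
    · exact absurd h6 hlα
    · exact sub_eq_zero.1 h6
  have hr : r ≠ 0 := by
    intro hr
    rw [hr] at h5
    simp at h5
  have hwk : (w : k) ≠ 0 := by
    have : w ≠ 0 := by omega
    exact_mod_cast this
  have h6 : C (V : k) * α = (X + C (p / r)) * derivative α := by
    have h7 : C ((w : k) * r) * (C (V : k) * α) = C ((w : k) * r) * ((X + C (p / r)) * derivative α) := by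
      have h8 : C ((w : k) * r) * C (p / r) = C ((w : k) * p) := by
        rw [← C_mul]; congr 1; field_simp
      have h9 : C ((w : k) * r) * C (V : k) = C ((d : k) * r) - 1 := by
        rw [← C_mul, ← h5, C_sub, C_1]
      have h10 : C ((w : k) * r) * ((X + C (p / r)) * derivative α)
        = C ((w : k) * r) * (derivative α * X) + (C ((w : k) * r) * C (p / r)) * derivative α := by
        ring
      rw [h10, h8, ← mul_assoc, h9]
      rw [h3] at h
      linear_combination h
    exact mul_left_cancel₀ (C_ne_zero.2 (mul_ne_zero hwk hr)) h7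
  obtain ⟨κ, hκ⟩ := pow_of_ode α (p / r) V h6
  refine ⟨κ, p / r, ?_, hκ⟩
  intro h0
  rw [h0, C_0, zero_mul] at hκ
  exact hα hκ

/-- Roots. -/
theorem root (α φ : k[X]) (d : ℕ) (h : C (d : k) * α * derivative φ -
    C (2 : k) * derivative α * φ = α) (hα : α ≠ 0) (y : k) (hy : α.IsRoot y) :
    φ.IsRoot y ∧ (derivative φ).eval y ≠ 0 := by
  obtain ⟨γ, hγ, hγ2⟩ := exists_eq_pow_rootMultiplicity_mul_and_not_dvd α hα y
  set v := α.rootMultiplicity y with hv
  have hv1 : 1 ≤ v := (rootMultiplicity_pos hα).2 hy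
  have hγy : γ.eval y ≠ 0 := by
    intro h0
    exact hγ2 (dvd_iff_isRoot.2 h0)
  obtain ⟨s, hs⟩ : ∃ s, v = s + 1 := ⟨v - 1, by omega⟩
  rw [hs] at hγ
  have hd : derivative α = (X - C y) ^ s * (C ((s : k) + 1) * γ + (X - C y) * derivative γ) := by
    rw [hγ, derivative_mul, derivative_pow]
    simp only [derivative_sub, derivative_X, derivative_C, Nat.add_sub_cancel, sub_zero, mul_one]
    push_cast
    rw [C_add, C_1, pow_succ]
    simp only [map_natCast]
    ring
  have hne : (X - C y) ^ s ≠ 0 := pow_ne_zero _ (X_sub_C_ne_zero y)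
  have h1 : C (d : k) * ((X - C y) * γ) * derivative φ -
      C (2 : k) * (C ((s : k) + 1) * γ + (X - C y) * derivative γ) * φ = (X - C y) * γ := by
    apply mul_left_cancel₀ hne
    rw [hd, hγ] at h
    linear_combination h
  have hs1 : ((s : k) + 1) ≠ 0 := by
    have : ((s + 1 : ℕ) : k) ≠ 0 := by exact_mod_cast Nat.succ_ne_zero s
    exact_mod_cast this
  have hroot : φ.eval y = 0 := by
    have h2 := congrArg (eval y) h1
    simp only [eval_sub, eval_mul, eval_C, eval_X, eval_add, sub_self, zero_mul, mul_zero,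
      add_zero, zero_sub, neg_eq_zero, mul_eq_zero] at h2
    rcases h2 with (h3 | h3 | h3) | h3
    · exact absurd h3 two_ne_zero
    · exact absurd h3 hs1
    · exact absurd h3 hγy
    · exact h3
  refine ⟨hroot, ?_⟩
  obtain ⟨ψ, hψ⟩ := dvd_iff_isRoot.2 (show φ.IsRoot y from hroot)
  have hψd : (derivative φ).eval y = ψ.eval y := by
    rw [hψ, derivative_mul]
    simp
  intro h0
  have h2 : C (d : k) * γ * derivative φ -
      C (2 : k) * (C ((s : k) + 1) * γ + (X - C y) * derivative γ) * ψ = γ := by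
    apply mul_left_cancel₀ (X_sub_C_ne_zero y)
    have h3 := h1
    rw [show C (2 : k) * (C ((s : k) + 1) * γ + (X - C y) * derivative γ) * φ
      = C (2 : k) * (C ((s : k) + 1) * γ + (X - C y) * derivative γ) * ((X - C y) * ψ) by
        rw [← hψ]] at h3
    linear_combination h3
  have h3 := congrArg (eval y) h2
  simp only [eval_sub, eval_mul, eval_C, eval_X, eval_add, sub_self, zero_mul, mul_zero,
      add_zero, h0] at h3
  rw [← hψd, h0] at h3
  simp at h3
  exact hγy h3.symm

end uni

section main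

open MvPolynomial

variable {k : Type u} [Field k]

theorem dz_target1 (κ c : k) (n i j : ℕ) :
    (aeval ![1, Polynomial.X] (C κ * X 0 ^ i * (X 1 + C c * X 0 ^ n) ^ j : MvPolynomial (Fin 2) k)
      : Polynomial k) = Polynomial.C κ * (Polynomial.X + Polynomial.C c) ^ j := by
  simp only [map_mul, map_pow, map_add, aeval_X, algHom_C, Matrix.cons_val_zero,
    Matrix.cons_val_one, one_pow, mul_one, Polynomial.algebraMap_eq]

theorem hom_target1 (κ c : k) (n i j : ℕ) :
    Hom n (i + j * n) (C κ * X 0 ^ i * (X 1 + C c * X 0 ^ n) ^ j : MvPolynomial (Fin 2) k) := by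
  have h1 : Hom n (0 + i * 1) (C κ * X 0 ^ i : MvPolynomial (Fin 2) k) :=
    (Hom.C n κ).mul ((Hom.X0 n).pow i)
  have h2 : Hom n n (X 1 + C c * X 0 ^ n : MvPolynomial (Fin 2) k) := by
    refine (Hom.X1 n).add ?_
    have := (Hom.C n c).mul ((Hom.X0 n).pow n)
    simpa using this
  have h3 := h1.mul (h2.pow j)
  simpa using h3

theorem dz_target2 (κ y1 y2 : k) (i j : ℕ) :
    (aeval ![1, Polynomial.X] (C κ * (C (-y1) * X 0 + C 1 * X 1) ^ i *
      (C (-y2) * X 0 + C 1 * X 1) ^ j : MvPolynomial (Fin 2) k) : Polynomial k)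
      = Polynomial.C κ * (Polynomial.X - Polynomial.C y1) ^ i *
        (Polynomial.X - Polynomial.C y2) ^ j := by
  simp only [map_mul, map_pow, map_add, aeval_X, algHom_C, Matrix.cons_val_zero,
    Matrix.cons_val_one, mul_one, Polynomial.algebraMap_eq, map_one, map_neg, one_mul]
  rw [neg_add_eq_sub, neg_add_eq_sub]

theorem hom_target2 (κ y1 y2 : k) (i j : ℕ) :
    Hom 1 (i + j) (C κ * (C (-y1) * X 0 + C 1 * X 1) ^ i *
      (C (-y2) * X 0 + C 1 * X 1) ^ j : MvPolynomial (Fin 2) k) := by
  have h0 : ∀ y : k, Hom 1 1 (C (-y) * X 0 + C 1 * X 1 : MvPolynomial (Fin 2) k) := by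
    intro y
    have h1 := (Hom.C 1 (-y)).mul (Hom.X0 (k := k) 1)
    have h2 := (Hom.C 1 (1 : k)).mul (Hom.X1 (k := k) 1)
    rw [zero_add] at h1 h2
    exact h1.add h2
  have h3 := ((Hom.C 1 κ).mul ((h0 y1).pow i)).mul ((h0 y2).pow j)
  simpa using h3

variable [CharZero k]

/-- Common part of the two classifications. -/
theorem common (A : MvPolynomial (Fin 2) k) (φ : Polynomial k) (n d : ℕ) (hn : 1 ≤ n)
    (hd : 0 < d) (hA0 : A ≠ 0) (hA : Hom n d A)
    (h : Polynomial.C (d : k) * (aeval ![1, Polynomial.X] A) * Polynomial.derivative φ -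
      Polynomial.C ((1 + n : ℕ) : k) * Polynomial.derivative (aeval ![1, Polynomial.X] A) * φ
        = aeval ![1, Polynomial.X] A) :
    (∃ (κ c : k) (i j : ℕ), κ ≠ 0 ∧ A = C κ * X 0 ^ i * (X 1 + C c * X 0 ^ n) ^ j) ∨
    (n = 1 ∧ φ.natDegree = 2 ∧ (aeval ![1, Polynomial.X] A : Polynomial k).natDegree = d) := by
  set α : Polynomial k := aeval ![1, Polynomial.X] A with hαd
  have hα : α ≠ 0 := fun h0 => hA0 (inj0 hA h0)
  have hdeg : n * α.natDegree ≤ d := deg_le hA hα
  by_cases hV : α.natDegree = 0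
  · left
    obtain ⟨κ, hκ⟩ : ∃ κ : k, α = Polynomial.C κ := ⟨_, Polynomial.eq_C_of_natDegree_eq_zero hV⟩
    refine ⟨κ, 0, d, 0, ?_, ?_⟩
    · intro h0
      apply hα
      rw [hκ, h0, Polynomial.C_0]
    · have h1 := hom_target1 κ 0 n d 0
      rw [zero_mul, add_zero] at h1
      apply inj1 hA h1
      rw [dz_target1, ← hαd, hκ, pow_zero, mul_one]
  have hV1 : 1 ≤ α.natDegree := by omega
  by_cases he : φ.natDegree ≤ 1
  · left
    obtain ⟨κ, c, hκ, hα2⟩ := small α φ d (1 + n) h hα hV1 he (by omega)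
    refine ⟨κ, c, d - n * α.natDegree, α.natDegree, hκ, ?_⟩
    have h1 := hom_target1 κ c n (d - n * α.natDegree) α.natDegree
    rw [show d - n * α.natDegree + α.natDegree * n = d by
      rw [mul_comm α.natDegree n]; omega] at h1
    apply inj1 hA h1
    rw [dz_target1, ← hαd]
    exact hα2
  · right
    have he2 : 2 ≤ φ.natDegree := by omega
    have h1 := lead α φ d (1 + n) h hα hV1 he2
    -- n d e = (1+n) n V ≤ (1+n) d
    have h2 : n * (d * φ.natDegree) ≤ (1 + n) * d := by
      rw [h1]
      calc n * ((1 + n) * α.natDegree) = (1 + n) * (n * α.natDegree) := by ring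
        _ ≤ (1 + n) * d := Nat.mul_le_mul_left _ hdeg
    have h3 : n * φ.natDegree ≤ 1 + n := by
      have h4 : d * (n * φ.natDegree) ≤ d * (1 + n) := by
        calc d * (n * φ.natDegree) = n * (d * φ.natDegree) := by ring
          _ ≤ (1 + n) * d := h2
          _ = d * (1 + n) := by ring
      exact Nat.le_of_mul_le_mul_left h4 hd
    have hn1 : n = 1 := by nlinarith
    subst hn1
    have he3 : φ.natDegree = 2 := by omega
    refine ⟨rfl, he3, ?_⟩
    rw [he3] at h1
    omega

theorem cl3 : S_CL3.{u} := by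
  intro k _ _ A φ n D hn hD hA0 hA h
  obtain ⟨d, rfl⟩ : ∃ d : ℕ, D = d := ⟨D.toNat, by omega⟩
  have hA' : Hom n d A := by
    intro m hm
    have := hA m hm
    exact_mod_cast this
  have h' : Polynomial.C (d : k) * (aeval ![1, Polynomial.X] A) * Polynomial.derivative φ -
      Polynomial.C ((1 + n : ℕ) : k) * Polynomial.derivative (aeval ![1, Polynomial.X] A) * φ
        = aeval ![1, Polynomial.X] A := by
    unfold OD at h
    push_cast at h ⊢
    exact h
  rcases common A φ n d (by omega) (by exact_mod_cast hD) hA0 hA' h' with h1 | h1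
  · exact h1
  · omega

omit [Field k] [CharZero k] in
theorem two_roots (s : Multiset k) (y1 y2 : k) (h : ∀ x ∈ s, x = y1 ∨ x = y2) :
    ∃ i j : ℕ, s = Multiset.replicate i y1 + Multiset.replicate j y2 := by
  classical
  induction s using Multiset.induction_on with
  | empty => exact ⟨0, 0, by simp⟩
  | cons a s ih =>
    obtain ⟨i, j, hij⟩ := ih (fun x hx => h x (Multiset.mem_cons_of_mem hx))
    rcases h a (Multiset.mem_cons_self a s) with h1 | h1
    · refine ⟨i + 1, j, ?_⟩
      rw [h1, hij, Multiset.replicate_succ, Multiset.cons_add]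
    · refine ⟨i, j + 1, ?_⟩
      rw [h1, hij, Multiset.replicate_succ, Multiset.add_cons]

theorem cl4 : S_CL4.{u} := by
  intro k _ _ _ A φ D hD hA0 hA h
  obtain ⟨d, rfl⟩ : ∃ d : ℕ, D = d := ⟨D.toNat, by omega⟩
  have hd : 0 < d := by exact_mod_cast hD
  have hA' : Hom 1 d A := by
    intro m hm
    have := hA m hm
    rw [one_mul]
    exact_mod_cast this
  have h' : Polynomial.C (d : k) * (aeval ![1, Polynomial.X] A) * Polynomial.derivative φ -
      Polynomial.C ((1 + 1 : ℕ) : k) * Polynomial.derivative (aeval ![1, Polynomial.X] A) * φ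
        = aeval ![1, Polynomial.X] A := by
    unfold OD at h
    push_cast at h ⊢
    exact h
  rcases common A φ 1 d le_rfl hd hA0 hA' h' with h1 | ⟨-, he, hV⟩
  · obtain ⟨κ, c, i, j, hκ, hAe⟩ := h1
    refine ⟨κ, 1, 0, c, 1, i, j, hκ, by simp, ?_⟩
    rw [hAe, C_1, C_0, one_mul, zero_mul, add_zero, one_mul, pow_one, add_comm (X 1)]
  set α : Polynomial k := aeval ![1, Polynomial.X] A with hαd
  have hα : α ≠ 0 := fun h0 => hA0 (inj0 hA' h0)
  have hroot := root α φ d (by
    have h2 := h'
    push_cast at h2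
    exact h2) hα
  obtain ⟨y1, hy1⟩ := IsAlgClosed.exists_root α (by
    intro h0
    rw [Polynomial.degree_eq_natDegree hα, hV] at h0
    have : d = 0 := by exact_mod_cast h0
    omega)
  obtain ⟨hφ1, hφ2⟩ := hroot y1 hy1
  obtain ⟨ψ, hψ⟩ := Polynomial.dvd_iff_isRoot.2 hφ1
  have hφ0 : φ ≠ 0 := by
    intro h0
    rw [h0] at he
    simp at he
  have hψ0 : ψ ≠ 0 := by
    intro h0
    apply hφ0
    rw [hψ, h0, mul_zero]
  have hψd : ψ.natDegree = 1 := by
    rw [hψ, Polynomial.natDegree_mul (Polynomial.X_sub_C_ne_zero y1) hψ0,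
      Polynomial.natDegree_X_sub_C] at he
    omega
  obtain ⟨y2, hy2⟩ := IsAlgClosed.exists_root ψ (by
    intro h0
    rw [Polynomial.degree_eq_natDegree hψ0, hψd] at h0
    exact absurd h0 (by norm_num))
  have hψe : ψ = Polynomial.C (ψ.leadingCoeff) * (Polynomial.X - Polynomial.C y2) := by
    obtain ⟨q, hq⟩ := Polynomial.dvd_iff_isRoot.2 hy2
    have hq0 : q ≠ 0 := by
      intro h0
      apply hψ0
      rw [hq, h0, mul_zero]
    have hqd : q.natDegree = 0 := by
      rw [hq, Polynomial.natDegree_mul (Polynomial.X_sub_C_ne_zero y2) hq0,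
        Polynomial.natDegree_X_sub_C] at hψd
      omega
    have hqe := Polynomial.eq_C_of_natDegree_eq_zero hqd
    have hlc : ψ.leadingCoeff = q.coeff 0 := by
      conv_lhs => rw [hq, Polynomial.leadingCoeff_mul, Polynomial.leadingCoeff_X_sub_C, one_mul,
        hqe, Polynomial.leadingCoeff_C]
    rw [hlc, ← hqe, mul_comm]
    exact hq
  have hne : y1 ≠ y2 := by
    intro h0
    apply hφ2
    rw [hψ, Polynomial.derivative_mul]
    simp only [Polynomial.derivative_sub, Polynomial.derivative_X, Polynomial.derivative_C,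
      sub_zero, one_mul, Polynomial.eval_add, Polynomial.eval_mul, Polynomial.eval_sub,
      Polynomial.eval_X, Polynomial.eval_C, sub_self, zero_mul, add_zero]
    rw [h0]
    exact hy2
  have hr : ∀ x ∈ α.roots, x = y1 ∨ x = y2 := by
    intro x hx
    have hx1 := (hroot x (Polynomial.isRoot_of_mem_roots hx)).1
    rw [Polynomial.IsRoot, hψ, hψe] at hx1
    simp only [Polynomial.eval_mul, Polynomial.eval_sub, Polynomial.eval_X, Polynomial.eval_C,
      mul_eq_zero, sub_eq_zero] at hx1
    rcases hx1 with h1 | h1 | h1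
    · exact Or.inl h1
    · exact absurd h1 (Polynomial.leadingCoeff_ne_zero.2 hψ0)
    · exact Or.inr h1
  obtain ⟨i, j, hij⟩ := two_roots α.roots y1 y2 hr
  have hsp := IsAlgClosed.splits α
  have hprod : α = Polynomial.C α.leadingCoeff * (Polynomial.X - Polynomial.C y1) ^ i *
      (Polynomial.X - Polynomial.C y2) ^ j := by
    conv_lhs => rw [hsp.eq_prod_roots, hij]
    rw [Multiset.map_add, Multiset.prod_add, Multiset.map_replicate, Multiset.map_replicate,
      Multiset.prod_replicate, Multiset.prod_replicate, mul_assoc]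
  have hcard : i + j = d := by
    rw [← hV, hsp.natDegree_eq_card_roots, hij]
    simp
  refine ⟨α.leadingCoeff, -y1, 1, -y2, 1, i, j, Polynomial.leadingCoeff_ne_zero.2 hα, ?_, ?_⟩
  · intro h0
    apply hne
    linear_combination -h0
  · have h1 := hom_target2 α.leadingCoeff y1 y2 i j
    rw [hcard] at h1
    apply inj1 hA' h1
    rw [dz_target2, ← hαd]
    exact hprod

theorem cl34 : S_CL3.{u} ∧ S_CL4.{u} := ⟨cl3, cl4⟩

end main

end Pool.Agent.W605.J6
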